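import Pool.Agent.H115R3.Final

/-!
# The smallest graceful tree containing a given tree: `γ(T) = |E(T)|` for trees with few non-leaves

Every finite tree `T` with `k` vertices of degree at least two and at least `10^28 k^46` vertices is
graceful, so `T` itself is the smallest graceful tree containing `T`. The positions of the leaves and
the shape of the tree of the non-leaves are arbitrary.

The proof is the one of the starting theorem `Pool.Agent.H115R3.graceful_of_few`, which was not
handed in before: some vertex has a huge number of leaves. If all other vertices have few leaves, the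
tree is labelled around this vertex; otherwise two or three vertices with many leaves are labelled
first, with gaps which are filled by the other vertices.
-/

set_option autoImplicit false

namespace Pool.Agent.Results.MP_128071_co.FewNonLeaves

/-- A graph with `m` edges is graceful if there is an injective map `f` of the vertices to
`{0, 1, …, m}` such that the edge labels `|f u - f v|` are exactly `1, …, m`. -/
def Graceful {V : Type} (T : SimpleGraph V) : Prop :=
  ∃ f : V → ℕ, Function.Injective f ∧ (∀ v, f v ≤ T.edgeSet.ncard) ∧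
    {d : ℕ | ∃ u v : V, T.Adj u v ∧ d = Int.natAbs ((f u : ℤ) - (f v : ℤ))} =
      Set.Icc 1 T.edgeSet.ncard

/-- The numbers of edges of the finite graceful trees which have a subgraph isomorphic to `T`. -/
def gracefulSizes {V : Type} (T : SimpleGraph V) : Set ℕ :=
  {k | ∃ (W : Type) (_ : Fintype W) (T' : SimpleGraph W),
    T'.IsTree ∧ Graceful T' ∧ T.IsContained T' ∧ T'.edgeSet.ncard = k}

/-- `γ(T)`: the least number of edges of a graceful tree which has a subgraph isomorphic to `T`. -/
noncomputable def gamma {V : Type} (T : SimpleGraph V) : ℕ := sInf (gracefulSizes T)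

theorem le_of_mem {V : Type} {T : SimpleGraph V} {k : ℕ}
    (hk : k ∈ gracefulSizes T) : T.edgeSet.ncard ≤ k := by
  classical
  obtain ⟨W, _, T', _, _, ⟨φ⟩, rfl⟩ := hk
  have hinj : Function.Injective φ := φ.injective
  have h1 : Sym2.map φ '' T.edgeSet ⊆ T'.edgeSet := by
    rintro _ ⟨e, he, rfl⟩
    induction e using Sym2.ind with
    | _ x y =>
      rw [Sym2.map_mk, SimpleGraph.mem_edgeSet]
      exact φ.toHom.map_adj ((SimpleGraph.mem_edgeSet T).1 he)
  calc T.edgeSet.ncard = (Sym2.map φ '' T.edgeSet).ncard :=
        (Set.ncard_image_of_injective _ (Sym2.map.injective hinj)).symm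
    _ ≤ T'.edgeSet.ncard := Set.ncard_le_ncard h1 (Set.toFinite _)

/-- Let `T` be a finite tree and let `k` be the number of its vertices of degree at least two. If `T`
has at least `10^28 k^46` vertices, then `T` is graceful and `γ(T) = |E(T)|`: `T` is a smallest
graceful tree containing `T`. -/
theorem result (V : Type) [Fintype V] (T : SimpleGraph V) (hT : T.IsTree)
    (h : 10 ^ 28 * {v : V | 2 ≤ (T.neighborSet v).ncard}.ncard ^ 46 ≤ Fintype.card V) :
    Graceful T ∧ T.edgeSet.ncard ∈ gracefulSizes T ∧ gamma T = T.edgeSet.ncard := by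
  classical
  obtain ⟨k, hk⟩ : ∃ k, k = {v : V | 2 ≤ (T.neighborSet v).ncard}.ncard := ⟨_, rfl⟩
  rw [← hk] at h
  have hg : Graceful T := by
    refine Pool.Agent.H115R3.graceful_of_few hT
      (I := (Set.toFinite {v : V | 2 ≤ (T.neighborSet v).ncard}).toFinset) (by simp) (k := k)
      ?_ rfl rfl rfl ?_
    · rw [hk, Set.ncard_eq_toFinset_card _ (Set.toFinite _)]
    · refine le_trans ?_ h
      rcases Nat.eq_zero_or_pos k with h0 | h0
      · subst h0; simp
      · have h1 : 1 ≤ k ^ 42 := Nat.one_le_pow _ _ h0
        calc 261 * k ^ 3 * (k * (226 * (1921 * k ^ 6) ^ 7 + 1))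
            = 261 * k ^ 4 * (226 * 1921 ^ 7 * k ^ 42 + 1) := by ring
          _ ≤ 261 * k ^ 4 * (226 * 1921 ^ 7 * k ^ 42 + k ^ 42) := by gcongr
          _ = 261 * (226 * 1921 ^ 7 + 1) * k ^ 46 := by ring
          _ ≤ 10 ^ 28 * k ^ 46 := Nat.mul_le_mul_right _ (by norm_num)
  have hm : T.edgeSet.ncard ∈ gracefulSizes T :=
    ⟨V, inferInstance, T, hT, hg, SimpleGraph.IsContained.refl T, rfl⟩
  exact ⟨hg, hm, le_antisymm (Nat.sInf_le hm) (le_of_mem (Nat.sInf_mem ⟨_, hm⟩))⟩

end Pool.Agent.Results.MP_128071_co.FewNonLeaves
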