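import Pool.Agent.R738.TwoHubs

/-!
# The smallest graceful tree containing a given tree: `γ(T) = |E(T)|` for trees close to a double star

1. Every finite tree `T` with `m` edges and two vertices `v`, `w` such that all but `s` of the other
   vertices are adjacent to `v` or to `w`, where `10^19 (s + 1) ≤ m`, is graceful, so `T` itself is the
   smallest graceful tree containing `T`.  The way in which the two hubs are joined, the distribution
   of the neighbours between them and the shape of the rest of the tree are arbitrary.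
2. The same conclusion if `v` and `w` are adjacent to at least `t` leaves each, where `t` is the number
   of the vertices other than `v`, `w` and the leaves adjacent to them, and `128 (t + 3) ≤ m`.
-/

set_option autoImplicit false

namespace Pool.Agent.Results.MP_128071_co.TwoHubs

/-- A graph with `m` edges is graceful if there is an injective map `f` of the vertices to
`{0, 1, …, m}` such that the edge labels `|f u - f v|` are exactly `1, …, m`. -/
def Graceful {V : Type} (T : SimpleGraph V) : Prop :=
  ∃ f : V → ℕ, Function.Injective f ∧ (∀ v, f v ≤ T.edgeSet.ncard) ∧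
    {d : ℕ | ∃ u v : V, T.Adj u v ∧ d = Int.natAbs ((f u : ℤ) - (f v : ℤ))} =
      Set.Icc 1 T.edgeSet.ncard

/-- The numbers of edges of the finite graceful trees which have a subgraph isomorphic to `T`. -/
def gracefulSizes {V : Type} (T : SimpleGraph V) : Set ℕ :=
  {k | ∃ (W : Type) (_ : Fintype W) (T' : SimpleGraph W),
    T'.IsTree ∧ Graceful T' ∧ T.IsContained T' ∧ T'.edgeSet.ncard = k}

/-- `γ(T)`: the least number of edges of a graceful tree which has a subgraph isomorphic to `T`. -/
noncomputable def gamma {V : Type} (T : SimpleGraph V) : ℕ := sInf (gracefulSizes T)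

/-- `x` is a leaf adjacent to `v`. -/
def LeafAt {V : Type} (T : SimpleGraph V) (v x : V) : Prop := T.Adj v x ∧ ∀ y, T.Adj x y → y = v

theorem le_of_mem {V : Type} {T : SimpleGraph V} {k : ℕ}
    (hk : k ∈ gracefulSizes T) : T.edgeSet.ncard ≤ k := by
  classical
  obtain ⟨W, _, T', _, _, ⟨φ⟩, rfl⟩ := hk
  have hinj : Function.Injective φ := φ.injective
  have h1 : Sym2.map φ '' T.edgeSet ⊆ T'.edgeSet := by
    rintro _ ⟨e, he, rfl⟩
    induction e using Sym2.ind with
    | _ x y =>
      rw [Sym2.map_mk, SimpleGraph.mem_edgeSet]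
      exact φ.toHom.map_adj ((SimpleGraph.mem_edgeSet T).1 he)
  calc T.edgeSet.ncard = (Sym2.map φ '' T.edgeSet).ncard :=
        (Set.ncard_image_of_injective _ (Sym2.map.injective hinj)).symm
    _ ≤ T'.edgeSet.ncard := Set.ncard_le_ncard h1 (Set.toFinite _)

/-- Let `T` be a finite tree with `m` edges and `v ≠ w` two vertices.  If `10^19 (s + 1) ≤ m`, where
`s` is the number of the vertices other than `v` and `w` which are adjacent neither to `v` nor to `w`,
or if `128 (t + 3) ≤ m` and `v`, `w` are adjacent to at least `t` leaves each, where `t` is the number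
of the vertices other than `v`, `w` and the leaves adjacent to `v` or `w`, then `T` is graceful and
`γ(T) = |E(T)|`: `T` is a smallest graceful tree containing `T`. -/
theorem result (V : Type) [Fintype V] (T : SimpleGraph V) (hT : T.IsTree) (v w : V) (hvw : v ≠ w)
    (h : 10 ^ 19 * ({x : V | x ≠ v ∧ x ≠ w ∧ ¬ T.Adj v x ∧ ¬ T.Adj w x}.ncard + 1) ≤
          T.edgeSet.ncard ∨
        ∃ t : ℕ, {x : V | x ≠ v ∧ x ≠ w ∧ ¬ LeafAt T v x ∧ ¬ LeafAt T w x}.ncard = t ∧
          t ≤ {x : V | x ≠ w ∧ LeafAt T v x}.ncard ∧ t ≤ {x : V | x ≠ v ∧ LeafAt T w x}.ncard ∧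
          128 * (t + 3) ≤ T.edgeSet.ncard) :
    Graceful T ∧ T.edgeSet.ncard ∈ gracefulSizes T ∧ gamma T = T.edgeSet.ncard := by
  have hg : Graceful T := by
    rcases h with h | ⟨t, h1, h2, h3, h4⟩
    · exact Pool.Agent.R738.TwoHubs.main T hT v w hvw h
    · exact Pool.Agent.R738.TwoHubs.leafy T hT v w hvw t h1.le h2 h3 h4
  have hm : T.edgeSet.ncard ∈ gracefulSizes T :=
    ⟨V, inferInstance, T, hT, hg, SimpleGraph.IsContained.refl T, rfl⟩
  exact ⟨hg, hm, le_antisymm (Nat.sInf_le hm) (le_of_mem (Nat.sInf_mem ⟨_, hm⟩))⟩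

end Pool.Agent.Results.MP_128071_co.TwoHubs
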